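import Pool.Agent.Helper2.NNQ.FarStm

/-!
# The numerical conditions of the Cantor set (statement NUM)
-/

set_option autoImplicit false

open Filter Topology Finset

namespace Pool.Agent.Helper62K5.NNF

open Pool.Agent.Helper2.NNF

lemma bdd_below_pos (j₀ : ℕ) : ∀ (b : ℕ → ℝ), (∀ j, 0 < b j) → (∀ j, j₀ ≤ j → b j ≤ b (j + 1)) →
    ∃ c : ℝ, 0 < c ∧ ∀ j, c ≤ b j := by
  induction j₀ with
  | zero =>
    intro b hb h
    exact ⟨b 0, hb 0, fun j => monotone_nat_of_le_succ (fun j => h j (Nat.zero_le _)) (Nat.zero_le j)⟩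
  | succ j₀ ih =>
    intro b hb h
    obtain ⟨c, hc, h1⟩ := ih (fun j => b (j + 1)) (fun j => hb _) (fun j hj => h (j + 1) (by omega))
    refine ⟨min (b 0) c, lt_min (hb 0) hc, fun j => ?_⟩
    rcases j with _ | j
    · exact min_le_left _ _
    · exact (min_le_right _ _).trans (h1 j)

lemma tendsto_log2 : Tendsto (Nat.log 2) atTop atTop := by
  refine tendsto_atTop_atTop.mpr fun b => ⟨2 ^ b, fun a ha => ?_⟩
  exact Nat.le_log_of_pow_le (by norm_num) ha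

lemma tendsto_KK : Tendsto KK atTop atTop := tendsto_log2.comp tendsto_log2

lemma fact_le (k : ℕ) : ((2 * k + 2).factorial : ℝ) ≤ Real.exp ((2 * (k : ℝ) + 2) ^ 2) := by
  have h1 : ((2 * k + 2).factorial : ℝ) ≤ ((2 * k + 2 : ℕ) : ℝ) ^ (2 * k + 2) := by
    exact_mod_cast Nat.factorial_le_pow (2 * k + 2)
  refine h1.trans ?_
  have h2 : ((2 * k + 2 : ℕ) : ℝ) ≤ Real.exp (2 * (k : ℝ) + 2) := by
    push_cast
    linarith [Real.add_one_le_exp (2 * (k : ℝ) + 2)]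
  calc ((2 * k + 2 : ℕ) : ℝ) ^ (2 * k + 2) ≤ (Real.exp (2 * (k : ℝ) + 2)) ^ (2 * k + 2) :=
        pow_le_pow_left₀ (by positivity) h2 _
    _ = Real.exp ((2 * (k : ℝ) + 2) ^ 2) := by
      rw [← Real.exp_nat_mul]
      congr 1
      push_cast
      ring

lemma ev_k (δ C : ℝ) (hδ : 0 < δ) :
    ∀ᶠ k : ℕ in atTop, C + (2 * (k : ℝ) + 2) ^ 2 ≤ δ * Real.log 2 * 2 ^ k := by
  have t2 := tendsto_pow_const_div_const_pow_of_one_lt 2 (r := (2 : ℝ)) (by norm_num)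
  have t1 := tendsto_pow_const_div_const_pow_of_one_lt 1 (r := (2 : ℝ)) (by norm_num)
  have t0 := tendsto_pow_const_div_const_pow_of_one_lt 0 (r := (2 : ℝ)) (by norm_num)
  have t := ((t2.const_mul 4).add (t1.const_mul 8)).add (t0.const_mul (C + 4))
  have hl : 0 < δ * Real.log 2 := mul_pos hδ (Real.log_pos (by norm_num))
  have hl' : (4 * 0 + 8 * 0 + (C + 4) * 0 : ℝ) < δ * Real.log 2 := by simpa using hl
  filter_upwards [t.eventually (gt_mem_nhds hl')] with k hk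
  have h2 : (0 : ℝ) < 2 ^ k := by positivity
  have e : 4 * ((k : ℝ) ^ 2 / 2 ^ k) + 8 * ((k : ℝ) ^ 1 / 2 ^ k) + (C + 4) * ((k : ℝ) ^ 0 / 2 ^ k) =
      (C + (2 * (k : ℝ) + 2) ^ 2) / 2 ^ k := by
    field_simp
    ring
  rw [e, div_lt_iff₀ h2] at hk
  exact hk.le

lemma growth (δ C : ℝ) (hδ : 0 < δ) (hC : 0 < C) :
    ∀ᶠ n : ℕ in atTop, C * ((2 * KK n + 2).factorial : ℝ) ≤ (n : ℝ) ^ δ := by
  filter_upwards [tendsto_KK.eventually (ev_k δ (Real.log C) hδ), eventually_ge_atTop 2] with n hn h2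
  have h3 : (2 : ℝ) ^ (2 ^ KK n) ≤ n := by
    have h4 : 2 ^ KK n ≤ Nat.log 2 n := Nat.pow_log_le_self 2 (by
      have : 1 ≤ Nat.log 2 n := Nat.le_log_of_pow_le (by norm_num) (by simpa using h2)
      omega)
    have h5 : 2 ^ Nat.log 2 n ≤ n := Nat.pow_log_le_self 2 (by omega)
    exact_mod_cast (Nat.pow_le_pow_right (by norm_num) h4).trans h5
  calc C * ((2 * KK n + 2).factorial : ℝ) ≤ C * Real.exp ((2 * (KK n : ℝ) + 2) ^ 2) :=
        mul_le_mul_of_nonneg_left (fact_le _) hC.le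
    _ = Real.exp (Real.log C + (2 * (KK n : ℝ) + 2) ^ 2) := by rw [Real.exp_add, Real.exp_log hC]
    _ ≤ Real.exp (δ * Real.log 2 * 2 ^ KK n) := Real.exp_le_exp.mpr hn
    _ = ((2 : ℝ) ^ (2 ^ KK n)) ^ δ := by
      rw [Real.rpow_def_of_pos (by positivity), Real.log_pow]
      congr 1
      push_cast
      ring
    _ ≤ (n : ℝ) ^ δ := Real.rpow_le_rpow (by positivity) h3 hδ.le

lemma growth' (δ C : ℝ) (hδ : 0 < δ) (hC : 0 < C) :
    ∀ᶠ n : ℕ in atTop, C * ((2 * KK (n + 1) + 2).factorial : ℝ) ≤ (n : ℝ) ^ δ := by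
  have h := growth δ (C * 2 ^ δ) hδ (by positivity)
  have h' := (tendsto_add_atTop_nat 1).eventually h
  filter_upwards [h', eventually_ge_atTop 1] with n hn h1
  have h2 : ((n + 1 : ℕ) : ℝ) ^ δ ≤ 2 ^ δ * (n : ℝ) ^ δ := by
    rw [← Real.mul_rpow (by norm_num) (by positivity)]
    refine Real.rpow_le_rpow (by positivity) ?_ hδ.le
    have : (1 : ℝ) ≤ n := by exact_mod_cast h1
    push_cast
    linarith
  have h3 : 0 < (2 : ℝ) ^ δ := by positivity
  have h4 := hn.trans h2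
  have h5 : (2 : ℝ) ^ δ * (C * ((2 * KK (n + 1) + 2).factorial : ℝ)) ≤ 2 ^ δ * (n : ℝ) ^ δ := by
    calc _ = C * 2 ^ δ * ((2 * KK (n + 1) + 2).factorial : ℝ) := by ring
      _ ≤ _ := h4
  exact le_of_mul_le_mul_left h5 h3

lemma mm_ge {n : ℕ} (h : 8 * ((2 * KK (n + 1) + 2).factorial : ℝ) ≤ n) :
    2 ≤ mm n ∧ (n : ℝ) / (8 * (2 * KK (n + 1) + 2).factorial) ≤ mm n ∧
    (mm n : ℝ) * (4 * (2 * KK (n + 1) + 2).factorial) ≤ n := by
  have hm : mm n = n / (4 * (2 * KK (n + 1) + 2).factorial) := rfl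
  have hF0 : 0 < (2 * KK (n + 1) + 2).factorial := Nat.factorial_pos _
  generalize (2 * KK (n + 1) + 2).factorial = F at *
  have h8 : 8 * F ≤ n := by exact_mod_cast h
  have h4F : 0 < 4 * F := by omega
  have h2 : 2 ≤ mm n := by
    rw [hm, Nat.le_div_iff_mul_le h4F]
    omega
  have h3 : mm n * (4 * F) ≤ n := by
    rw [hm]
    exact Nat.div_mul_le_self _ _
  have h4 : n < 4 * F * (mm n + 1) := by
    rw [hm]
    exact Nat.lt_mul_div_succ n h4F
  refine ⟨h2, ?_, by exact_mod_cast h3⟩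
  have hF' : (0 : ℝ) < F := by exact_mod_cast hF0
  rw [div_le_iff₀ (by positivity)]
  have h5 : n ≤ mm n * (8 * F) := by nlinarith
  exact_mod_cast h5

lemma ratio {s B : ℝ} {n : ℕ} (hs : 0 < s) (hn1 : 1 ≤ n)
    (h8 : 8 * ((2 * KK (n + 1) + 2).factorial : ℝ) ≤ n)
    (h : 8 * (2 * Real.exp 2) ^ s * ((2 * KK (n + 1) + 2).factorial : ℝ) ≤ (n : ℝ) ^ (1 - s))
    (h2 : 2 + B ≤ n) (h3 : -2 - 2 * B ≤ n) (hx : 0 < (n : ℝ) + 1 + B) :
    (1 / (32 * ((n : ℝ) + 1 + B) ^ n)) ^ s ≤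
      mm n * (1 / (32 * ((n : ℝ) + 1 + 1 + B) ^ (n + 1))) ^ s := by
  have hx1 : (n : ℝ) + 1 + 1 + B = ((n : ℝ) + 1 + B) + 1 := by ring
  rw [hx1]
  have h3' : (n : ℝ) ≤ 2 * ((n : ℝ) + 1 + B) := by linarith
  have h2' : ((n : ℝ) + 1 + B) + 1 ≤ 2 * n := by linarith
  generalize (n : ℝ) + 1 + B = x at *
  have hn : (1 : ℝ) ≤ n := by exact_mod_cast hn1
  have hX : 0 < x ^ n := pow_pos hx n
  have hY : 0 < (x + 1) ^ (n + 1) := by positivity
  have e1 : (x + 1) ^ n ≤ Real.exp 2 * x ^ n := by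
    have h5 : x + 1 = x * (1 + 1 / x) := by field_simp
    have h4 : 1 + 1 / x ≤ Real.exp (1 / x) := by linarith [Real.add_one_le_exp (1 / x)]
    calc (x + 1) ^ n = x ^ n * (1 + 1 / x) ^ n := by rw [← mul_pow, ← h5]
      _ ≤ x ^ n * (Real.exp (1 / x)) ^ n :=
        mul_le_mul_of_nonneg_left (pow_le_pow_left₀ (by positivity) h4 n) hX.le
      _ = x ^ n * Real.exp (n * (1 / x)) := by rw [← Real.exp_nat_mul]
      _ ≤ x ^ n * Real.exp 2 := by
        refine mul_le_mul_of_nonneg_left (Real.exp_le_exp.mpr ?_) hX.le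
        rw [mul_one_div, div_le_iff₀ hx]
        exact h3'
      _ = _ := by ring
  have e2 : (x + 1) ^ (n + 1) ≤ (2 * Real.exp 2) * n * x ^ n := by
    rw [pow_succ]
    calc (x + 1) ^ n * (x + 1) ≤ (Real.exp 2 * x ^ n) * (2 * n) :=
          mul_le_mul e1 h2' (by positivity) (by positivity)
      _ = _ := by ring
  have e3 : 1 / (32 * x ^ n) ≤ (2 * Real.exp 2) * n * (1 / (32 * (x + 1) ^ (n + 1))) := by
    rw [mul_one_div, div_le_div_iff₀ (by positivity) (by positivity)]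
    linarith
  calc (1 / (32 * x ^ n)) ^ s ≤ ((2 * Real.exp 2) * n * (1 / (32 * (x + 1) ^ (n + 1)))) ^ s :=
        Real.rpow_le_rpow (by positivity) e3 hs.le
    _ = ((2 * Real.exp 2) ^ s * (n : ℝ) ^ s) * (1 / (32 * (x + 1) ^ (n + 1))) ^ s := by
      rw [Real.mul_rpow (by positivity) (by positivity), Real.mul_rpow (by positivity) (by positivity)]
    _ ≤ mm n * (1 / (32 * (x + 1) ^ (n + 1))) ^ s := by
      refine mul_le_mul_of_nonneg_right ?_ (by positivity)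
      refine le_trans ?_ (mm_ge h8).2.1
      have hF0 : (0 : ℝ) < ((2 * KK (n + 1) + 2).factorial : ℝ) := by
        exact_mod_cast Nat.factorial_pos _
      rw [le_div_iff₀ (by positivity)]
      calc (2 * Real.exp 2) ^ s * (n : ℝ) ^ s * (8 * ((2 * KK (n + 1) + 2).factorial : ℝ)) =
            (8 * (2 * Real.exp 2) ^ s * ((2 * KK (n + 1) + 2).factorial : ℝ)) * (n : ℝ) ^ s := by ring
        _ ≤ (n : ℝ) ^ (1 - s) * (n : ℝ) ^ s := mul_le_mul_of_nonneg_right h (by positivity)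
        _ = n := by
          rw [← Real.rpow_add (by positivity)]
          simp

theorem t_NUM : S_NUM := by
  obtain ⟨N₁, h₁⟩ := eventually_atTop.mp
    ((growth' 1 8 one_pos (by norm_num)).and (eventually_ge_atTop 1))
  have h8 : ∀ n, N₁ ≤ n → 8 * ((2 * KK (n + 1) + 2).factorial : ℝ) ≤ n := fun n hn => by
    have h := (h₁ n hn).1
    rwa [Real.rpow_one] at h
  have hQ : ∀ n : ℕ, ((QQ (n + 1) : ℤ) : ℝ) = ((2 * KK (n + 1) + 2).factorial : ℝ) := by
    intro n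
    unfold QQ
    push_cast
    rfl
  refine ⟨N₁, fun n hn => ?_, fun s B N hs hs1 hN hB => ?_⟩
  · obtain ⟨a, b, c⟩ := mm_ge (h8 n hn)
    refine ⟨a, ?_⟩
    have h := h8 n hn
    rw [hQ]
    nlinarith
  have hx : ∀ j : ℕ, (0 : ℝ) < ((N + j : ℕ) : ℝ) + 1 + B := by
    intro j
    push_cast
    have : (0 : ℝ) ≤ j := by positivity
    linarith
  have hmm : ∀ l : ℕ, (0 : ℝ) < mm (N + l) := by
    intro l
    have := (mm_ge (h8 (N + l) (by omega))).1
    exact_mod_cast (by omega : 0 < mm (N + l))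
  have hprod : ∀ j : ℕ, (0 : ℝ) < ∏ l ∈ range j, (mm (N + l) : ℝ) := fun j =>
    Finset.prod_pos fun l _ => hmm l
  obtain ⟨n₀, h₀⟩ := eventually_atTop.mp
    (growth' (1 - s) (8 * (2 * Real.exp 2) ^ s) (by linarith) (by positivity))
  obtain ⟨n₁, hn₁⟩ := exists_nat_ge (max (2 + B) (-2 - 2 * B))
  obtain ⟨c, hc, h⟩ := bdd_below_pos (max n₀ n₁)
    (fun j => (∏ l ∈ range j, (mm (N + l) : ℝ)) *
      (1 / (32 * (((N + j : ℕ) : ℝ) + 1 + B) ^ (N + j))) ^ s)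
    (fun j => mul_pos (hprod j) (Real.rpow_pos_of_pos
      (one_div_pos.mpr (mul_pos (by norm_num) (pow_pos (hx j) _))) s))
    (fun j hj => by
      have h5 : ((n₁ : ℕ) : ℝ) ≤ ((N + j : ℕ) : ℝ) := by
        have : n₁ ≤ N + j := le_trans (le_trans (le_max_right _ _) hj) (by omega)
        exact_mod_cast this
      have h6 := ratio (s := s) (B := B) (n := N + j) hs (h₁ (N + j) (by omega)).2
        (h8 (N + j) (by omega))
        (h₀ (N + j) (le_trans (le_trans (le_max_left _ _) hj) (by omega)))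
        ((le_max_left _ _).trans (hn₁.trans h5)) ((le_max_right _ _).trans (hn₁.trans h5)) (hx j)
      have e : ((N + (j + 1) : ℕ) : ℝ) + 1 + B = ((N + j : ℕ) : ℝ) + 1 + 1 + B := by
        push_cast
        ring
      show (∏ l ∈ range j, (mm (N + l) : ℝ)) * _ ≤ (∏ l ∈ range (j + 1), (mm (N + l) : ℝ)) *
        (1 / (32 * (((N + (j + 1) : ℕ) : ℝ) + 1 + B) ^ (N + (j + 1)))) ^ s
      rw [Finset.prod_range_succ, mul_assoc, e]
      exact mul_le_mul_of_nonneg_left h6 (hprod j).le)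
  refine ⟨c, hc, fun j => (h j).trans ?_⟩
  refine mul_le_mul_of_nonneg_left ?_ (hprod j).le
  have hX : (0 : ℝ) < (((N + j : ℕ) : ℝ) + 1 + B) ^ (N + j) := pow_pos (hx j) _
  refine Real.rpow_le_rpow (one_div_nonneg.mpr (by positivity)) ?_ hs.le
  rw [hQ (N + j)]
  obtain ⟨a, b, d⟩ := mm_ge (h8 (N + j) (by omega))
  have hn : (1 : ℝ) ≤ ((N + j : ℕ) : ℝ) := by exact_mod_cast (h₁ (N + j) (by omega)).2
  have hF0 : (0 : ℝ) < ((2 * KK (N + j + 1) + 2).factorial : ℝ) := by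
    exact_mod_cast Nat.factorial_pos _
  rw [div_le_iff₀ (by positivity)] at b
  generalize (((N + j : ℕ) : ℝ) + 1 + B) ^ (N + j) = X at *
  generalize ((N + j : ℕ) : ℝ) = n at *
  generalize ((2 * KK (N + j + 1) + 2).factorial : ℝ) = F at *
  generalize (mm (N + j) : ℝ) = M at *
  rw [mul_div_assoc', div_le_div_iff₀ (by positivity) (by positivity)]
  have h7 : n ≤ 8 * (M * F) := by linarith
  nlinarith

end Pool.Agent.Helper62K5.NNF
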